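import Mathlib
import Pool.Agent.H.MP_20d9b9_al.SL

namespace Pool.Agent.Results.MP_d4f5ca_al.Path

open Pool.Agent.H.MP_20d9b9_al

/-- the lattice of submodules is distributive -/
def Distr (S M : Type) [Ring S] [AddCommGroup M] [Module S M] : Prop :=
  ∀ F G H : Submodule S M, F ⊓ (G ⊔ H) = (F ⊓ G) ⊔ (F ⊓ H)

/-- the right regular module is a direct sum of distributive modules -/
def RightSemidistr (A : Type) [Ring A] : Prop :=
  ∃ (ι : Type) (M : ι → Submodule Aᵐᵒᵖ A), iSupIndep M ∧ iSup M = ⊤ ∧ ∀ i, Distr Aᵐᵒᵖ (M i)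

@[ext] structure T where
  a : ZMod 2
  b : ZMod 2
  c : ZMod 2
  u : ZMod 2
  v : ZMod 2
deriving DecidableEq, Fintype

instance : Add T := ⟨fun x y => ⟨x.a + y.a, x.b + y.b, x.c + y.c, x.u + y.u, x.v + y.v⟩⟩
instance : Neg T := ⟨fun x => ⟨-x.a, -x.b, -x.c, -x.u, -x.v⟩⟩
instance : Zero T := ⟨⟨0, 0, 0, 0, 0⟩⟩
instance : One T := ⟨⟨1, 1, 1, 0, 0⟩⟩
instance : Mul T :=
  ⟨fun x y => ⟨x.a * y.a, x.b * y.b, x.c * y.c, x.a * y.u + x.u * y.b, x.a * y.v + x.v * y.c⟩⟩

lemma add_def (x y : T) : x + y = ⟨x.a + y.a, x.b + y.b, x.c + y.c, x.u + y.u, x.v + y.v⟩ := rfl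
lemma neg_def (x : T) : -x = ⟨-x.a, -x.b, -x.c, -x.u, -x.v⟩ := rfl
lemma zero_def : (0 : T) = ⟨0, 0, 0, 0, 0⟩ := rfl
lemma one_def : (1 : T) = ⟨1, 1, 1, 0, 0⟩ := rfl
lemma mul_def (x y : T) : x * y =
  ⟨x.a * y.a, x.b * y.b, x.c * y.c, x.a * y.u + x.u * y.b, x.a * y.v + x.v * y.c⟩ := rfl

instance : Ring T := Ring.ofMinimalAxioms
  (by intros; ext <;> simp [add_def, add_assoc])
  (by intros; ext <;> simp [add_def, zero_def])
  (by decide)
  (by intros; ext <;> simp [mul_def] <;> ring)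
  (by intros; ext <;> simp [mul_def, one_def])
  (by intros; ext <;> simp [mul_def, one_def])
  (by intros; ext <;> simp [mul_def, add_def] <;> ring)
  (by intros; ext <;> simp [mul_def, add_def] <;> ring)

def φ : RingAut T where
  toFun x := ⟨x.a, x.c, x.b, x.v, x.u⟩
  invFun x := ⟨x.a, x.c, x.b, x.v, x.u⟩
  left_inv _ := rfl
  right_inv _ := rfl
  map_mul' _ _ := rfl
  map_add' _ _ := rfl

lemma φ_def (x : T) : φ x = ⟨x.a, x.c, x.b, x.v, x.u⟩ := rfl

def e : Fin 3 → T := ![⟨1, 0, 0, 0, 0⟩, ⟨0, 1, 0, 0, 0⟩, ⟨0, 0, 1, 0, 0⟩]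

def M (i : Fin 3) : Submodule Tᵐᵒᵖ T where
  carrier := {x | e i * x = x}
  zero_mem' := mul_zero _
  add_mem' := fun {x y} hx hy => by
    change e i * (x + y) = x + y
    rw [mul_add, hx, hy]
  smul_mem' := fun r x hx => by
    change e i * (x * r.unop) = x * r.unop
    rw [← mul_assoc, hx]

lemma crit : ∀ (i : Fin 3) (g h : T), e i * g = g → e i * h = h →
    ∃ r : T, (∃ s : T, (g + h) * r = g * s) ∧ ∃ t : T, (g + h) + -((g + h) * r) = h * t := by
  decide +kernel

lemma semiT : RightSemidistr T := by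
  refine ⟨Fin 3, M, fun i => ?_, ?_, fun i F G H => le_antisymm ?_ le_inf_sup⟩
  · rw [Submodule.disjoint_def]
    intro x hx hx'
    have : e i * x = 0 := by
      refine Submodule.iSup_induction (motive := fun x => e i * x = 0) _ hx' ?_ (mul_zero _)
        (fun x y hx hy => by rw [mul_add, hx, hy, add_zero])
      intro j y hy
      by_cases hj : j = i
      · simp only [hj, ne_eq, not_true_eq_false, iSup_false, Submodule.mem_bot] at hy
        rw [hy, mul_zero]
      · simp only [ne_eq, hj, not_false_eq_true, iSup_true] at hy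
        have h1 : e j * y = y := hy
        have h2 : ∀ i j : Fin 3, j ≠ i → e i * e j = 0 := by decide
        rw [← h1, ← mul_assoc, h2 i j hj, zero_mul]
    exact (show e i * x = x from hx).symm.trans this
  · rw [eq_top_iff]
    intro x _
    have h1 : ∀ x : T, x = e 0 * x + e 1 * x + e 2 * x := by decide
    have h2 : ∀ i, e i * x ∈ iSup M := fun i => Submodule.mem_iSup_of_mem i (by
      have h3 : ∀ i : Fin 3, e i * e i = e i := by decide
      change e i * (e i * x) = e i * x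
      rw [← mul_assoc, h3])
    rw [h1 x]
    exact add_mem (add_mem (h2 0) (h2 1)) (h2 2)
  · rintro z ⟨hF, hz⟩
    obtain ⟨g, hg, h, hh, rfl⟩ := Submodule.mem_sup.1 hz
    obtain ⟨r, ⟨s, hs⟩, t, ht⟩ := crit i g.1 h.1 g.2 h.2
    refine Submodule.mem_sup.2 ⟨MulOpposite.op r • (g + h), ⟨F.smul_mem _ hF, ?_⟩,
      (g + h) - MulOpposite.op r • (g + h), ⟨F.sub_mem hF (F.smul_mem _ hF), ?_⟩, by abel⟩
    · have : MulOpposite.op r • (g + h) = MulOpposite.op s • g := Subtype.ext hs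
      rw [this]
      exact G.smul_mem _ hg
    · have : (g + h) - MulOpposite.op r • (g + h) = MulOpposite.op t • h :=
        Subtype.ext (by rw [sub_eq_add_neg]; exact ht)
      rw [this]
      exact H.smul_mem _ hh

lemma φ_e (n : ℤ) : (φ ^ n) (e 0) = e 0 := by
  have : φ ∈ MulAction.stabilizer (RingAut T) (e 0) := rfl
  exact Subgroup.zpow_mem _ this n

def α : T := ⟨0, 0, 0, 1, 0⟩
def β : T := ⟨0, 0, 0, 0, 1⟩

section
variable {R : Type} [Ring R] {c : R →+ ℤ → T} (h : IsSL φ c)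
include h

lemma canc (f : R) (hf : ∃ n, (c f n).a ≠ 0) (w : R) (hw : h.mon 0 (e 0) * w = w)
    (h0 : f * w = 0) : w = 0 := by
  by_contra hne
  obtain ⟨n, hn⟩ := hf
  have hc : ∀ m, c (f * h.mon 0 (e 0)) m = c f m * e 0 := fun m => by
    rw [h.mul_mon, φ_e, sub_zero]
  have hg : f * h.mon 0 (e 0) ≠ 0 := by
    intro h1
    have := hc n
    rw [h1, map_zero] at this
    have h2 : ∀ x : T, 0 = x * e 0 → x.a = 0 := by decide
    exact hn (h2 _ this)
  obtain ⟨d, d1, d2⟩ := h.ex_lead hg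
  obtain ⟨k, k1, k2⟩ := h.ex_lead hne
  have h1 := h.lead d2 k2
  have h2 : ∀ x : T, x * e 0 ≠ 0 → x * e 0 = e 0 := by decide
  have h3 : e 0 * c w k = c w k := by
    conv_rhs => rw [← hw, h.mon_mul, zp_zero, sub_zero]
  rw [hc] at d1
  rw [mul_assoc, hw, h0, map_zero, hc, h2 _ d1, ← φ_e d, ← map_mul, h3] at h1
  exact k1 ((map_eq_zero_iff _ (φ ^ d).injective).1 h1.symm)

lemma notR : ¬ RightSemidistr R := by
  rintro ⟨ι, N, -, htop, hD⟩
  have : ∃ i, ∃ f ∈ N i, ∃ n, (c f n).a ≠ 0 := by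
    by_contra hc
    push Not at hc
    have h1 : (1 : R) ∈ iSup N := by rw [htop]; trivial
    have := Submodule.iSup_induction (motive := fun x => (c x 0).a = 0) _ h1
      (fun i x hx => hc i x hx 0) (by rw [map_zero]; rfl)
      (fun x y hx hy => by rw [map_add, Pi.add_apply, add_def, hx, hy, add_zero])
    rw [h.c_one, Pi.single_eq_same] at this
    exact absurd this (by decide)
  obtain ⟨i, f, hf, hn⟩ := this
  let a := h.mon 0 α
  let b := h.mon 1 β
  have ea : h.mon 0 (e 0) * a = a := by rw [h.mon_mon, zp_zero]; rfl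
  have eb : h.mon 0 (e 0) * b = b := by rw [h.mon_mon, zp_zero]; rfl
  have ca : ∀ r n, c (a * r) n = ⟨0, 0, 0, (c r n).b, 0⟩ := fun r n => by
    rw [h.mon_mul, zp_zero, sub_zero]
    simp [mul_def, α]
  have cb : ∀ r n, c (b * r) n = ⟨0, 0, 0, 0, (c r (n - 1)).b⟩ := fun r n => by
    rw [h.mon_mul, zpow_one]
    simp [mul_def, β, φ_def]
  have z : ∀ r, (∀ n, (c r n).b = 0) → (a + b) * r = 0 := fun r hr => h.ext fun n => by
    rw [add_mul, map_add, Pi.add_apply, ca, cb, hr, hr, map_zero]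
    rfl
  let x : N i := ⟨f * a, (N i).smul_mem (MulOpposite.op a) hf⟩
  let y : N i := ⟨f * b, (N i).smul_mem (MulOpposite.op b) hf⟩
  have key : ∀ (p : R) (q : N i), q.1 = f * p → h.mon 0 (e 0) * p = p →
      (∀ r s, (a + b) * r = p * s → ∀ n, (c r n).b = 0) →
      Submodule.span Rᵐᵒᵖ {x + y} ⊓ Submodule.span Rᵐᵒᵖ {q} = ⊥ := by
    intro p q hq hp hb
    rw [eq_bot_iff]
    rintro t ⟨h1, h2⟩
    obtain ⟨r, hr⟩ := Submodule.mem_span_singleton.1 h1
    obtain ⟨s, hs⟩ := Submodule.mem_span_singleton.1 h2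
    have r1 : (f * a + f * b) * r.unop = t.1 := congrArg Subtype.val hr
    have s1 : q.1 * s.unop = t.1 := congrArg Subtype.val hs
    have := canc h f hn ((a + b) * r.unop - p * s.unop)
      (by rw [mul_sub, ← mul_assoc, ← mul_assoc, mul_add, ea, eb, hp])
      (by rw [mul_sub, ← mul_assoc, ← mul_assoc, mul_add, r1, ← hq, s1, sub_self])
    have h3 := z _ (hb _ _ (sub_eq_zero.1 this))
    apply Subtype.ext
    rw [← r1, ← mul_add, mul_assoc, h3, mul_zero]
    rfl
  have h1 := hD i (Submodule.span _ {x + y}) (Submodule.span _ {x}) (Submodule.span _ {y})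
  rw [key a x rfl ea, key b y rfl eb, sup_idem] at h1
  · have h2 : x + y ∈ (⊥ : Submodule Rᵐᵒᵖ (N i)) := by
      rw [← h1]
      exact ⟨Submodule.mem_span_singleton_self _, Submodule.add_mem_sup
        (Submodule.mem_span_singleton_self _) (Submodule.mem_span_singleton_self _)⟩
    have h3 : f * a + f * b = 0 := congrArg Subtype.val h2
    have h4 := canc h f hn (a + b) (by rw [mul_add, ea, eb]) (by rw [mul_add, h3])
    have h5 := congrArg (fun r => c r 0) h4
    simp only [map_add, Pi.add_apply, a, b, h.c_mon, map_zero] at h5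
    revert h5
    decide
  · intro r s hrs n
    have := congrArg (fun t => (c t n).u) hrs
    simpa [add_mul, ca, cb, add_def] using this
  · intro r s hrs n
    have := congrArg (fun t => (c t (n + 1)).v) hrs
    simpa [add_mul, ca, cb, add_def] using this

end

theorem result : ∃ (A : Type) (_ : Ring A) (φ : RingAut A) (R : Type) (_ : Ring R)
    (c : R →+ ℤ → A), IsSL φ c ∧ IsArtinian Aᵐᵒᵖ A ∧ RightSemidistr A ∧ ¬ RightSemidistr R :=
  ⟨T, inferInstance, φ, SL φ, inferInstance, cSL _, isSL _, isArtinian_of_finite, semiT,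
    notR (isSL _)⟩

end Pool.Agent.Results.MP_d4f5ca_al.Path
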